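import Mathlib
import Pool.Agent.N824.CD.Back

/-!
# A knot is slice (ribbon) if and only if it bounds coarse slice (ribbon) discs

A slice disc in the half-space `x₃ ≥ 0` of `ℝ⁴` (coordinates `x₀, …, x₃`) is a smooth embedding `φ`
of the closed unit disc which maps exactly the boundary circle to the hyperplane `x₃ = 0`,
transversally. It is a ribbon disc if the interior critical points of the height `x₃ ∘ φ` are
nondegenerate and not local minima; a knot is ribbon if and only if it bounds such a disc.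

We show that a knot (with a germ `φ₀` of slice disc along it) bounds a slice disc, respectively a
ribbon disc, if and only if it bounds *coarse* discs: for `r` in a set `S` of scales accumulating at
`0` (for instance a sequence) a map `f r` from the closed unit disc to `ℝ⁴`, without any regularity
besides local integrability, each one at its own scale `r` and unrelated for different `r`. Near the
circle (on an open set `U`, which may also contain other parts of the disc, in the ribbon case it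
contains the critical points of the height) `f r` is equal to a smooth embedding `F`. Near the points
outside `U`, on the ball of radius `2 r` about each point `p`, `f r` is *in the mean* within `δ r` of
an affine map, the linear part `L` of which is injective with a margin: `m |v| ≤ |L v|` with
`C δ < m`; here `L`, `m`, `δ` depend on `p` and `r`, and `(1 + |L|) r ≤ δ τ(r)` where `τ` tends to
`0`. Moreover `f r` separates the points at distance at least `r / 2`, up to the factor `lam r`, where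
`|L| ≤ H lam` and `C H² δ ≤ lam`, and its height is positive there. For coarse ribbon discs, the height
of `L` is not zero, with the same margin `C δ`. Here `C` is any sufficiently large constant. The
maps `f r` may be discontinuous and their slopes may tend to zero or to infinity.
-/

set_option autoImplicit false

open Set Filter Topology Metric MeasureTheory
open scoped ContDiff

noncomputable section

namespace Pool.Agent.Results.MP_752436_gt.CoarseDiscs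

/-- `ℝ²` -/
abbrev R2 := EuclideanSpace ℝ (Fin 2)

/-- `ℝ⁴` -/
abbrev R4 := EuclideanSpace ℝ (Fin 4)

/-- Lebesgue measure on `ℝ²` -/
def vol2 : Measure R2 := volume

/-- the height `x₃` on `ℝ⁴` -/
def ht : R4 →L[ℝ] ℝ := EuclideanSpace.proj (𝕜 := ℝ) 3

/-! In the following definitions `V = ℝ²` (with Lebesgue measure `μ`), `W = ℝ⁴` and `e` is the
height. -/

section

variable {V W : Type} [NormedAddCommGroup V] [NormedSpace ℝ V] [MeasurableSpace V]
  [NormedAddCommGroup W] [NormedSpace ℝ W]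

/-- the part over `U` of a slice disc: `φ` is a smooth embedding of the part in `U` of the closed
unit disc in the half-space `e ≥ 0`, which maps exactly the boundary circle to the hyperplane
`e = 0`, transversally; `U` contains the boundary circle -/
structure PartialDisc (e : W →L[ℝ] ℝ) (U : Set V) (φ : V → W) : Prop where
  circle : ∀ z : V, ‖z‖ = 1 → z ∈ U
  smooth : ∀ z ∈ U, ‖z‖ ≤ 1 → ContDiffAt ℝ ∞ φ z
  inj : ∀ z ∈ U, ∀ w ∈ U, ‖z‖ ≤ 1 → ‖w‖ ≤ 1 → φ z = φ w → z = w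
  imm : ∀ z ∈ U, ‖z‖ ≤ 1 → ∀ v, fderiv ℝ φ z v = 0 → v = 0
  bdry : ∀ z : V, ‖z‖ = 1 → e (φ z) = 0 ∧ fderiv ℝ (fun w => e (φ w)) z ≠ 0
  pos : ∀ z ∈ U, ‖z‖ < 1 → 0 < e (φ z)

/-- slice discs -/
def SliceDisc (e : W →L[ℝ] ℝ) (φ : V → W) : Prop := PartialDisc e univ φ

/-- `z` is a regular point of the function `h`, or a nondegenerate critical point which is not a
local minimum (a saddle or a local maximum) -/
def NoMin (h : V → ℝ) (z : V) : Prop :=
  fderiv ℝ h z = 0 →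
    (∀ v, (∀ w, fderiv ℝ (fderiv ℝ h) z v w = 0) → v = 0) ∧ ∃ v, fderiv ℝ (fderiv ℝ h) z v v < 0

/-- ribbon discs -/
def RibbonDisc (e : W →L[ℝ] ℝ) (φ : V → W) : Prop :=
  SliceDisc e φ ∧ ∀ z : V, ‖z‖ < 1 → NoMin (fun w => e (φ w)) z

/-- `φ` and `φ₀` are equal near the boundary circle. -/
def SameGerm (φ φ₀ : V → W) : Prop := ∀ z : V, ‖z‖ = 1 → φ =ᶠ[𝓝 z] φ₀

/-- `h` is integrable on the ball of radius `R` about `p` and its distance to an affine map with
linear part `L` has integral at most `b` over this ball. -/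
def AffineInMean (μ : Measure V) (h : V → W) (p : V) (R b : ℝ) (L : V →L[ℝ] W) : Prop :=
  IntegrableOn h (closedBall p R) μ ∧ ∃ c : W,
    ∫ q in closedBall p R, ‖h q - c - L (q - p)‖ ∂μ ≤ b

/-- the coarse condition for the map `f` at the point `p` and the scale `r` -/
def CoarsePoint (μ : Measure V) (e : W →L[ℝ] ℝ) (C lam H τ : ℝ) (T : (V →L[ℝ] W) → ℝ → Prop)
    (f : V → W) (r : ℝ) (p : V) : Prop :=
  ∃ (L : V →L[ℝ] W) (δ m : ℝ), 0 ≤ δ ∧ (1 + ‖L‖) * r ≤ δ * τ ∧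
    AffineInMean μ f p (2 * r) (δ * r ^ 3) L ∧ (∀ v, m * ‖v‖ ≤ ‖L v‖) ∧ C * δ < m ∧
    ‖L‖ ≤ H * lam ∧ C * H ^ 2 * δ ≤ lam ∧ lam * r ≤ e (f p) ∧ T L δ

/-- the condition for the map `f` at the scale `r`: it is equal to `F` on `U`, and separates the
points at distance at least `r / 2` -/
def AtScale (U : Set V) (F : V → W) (lam H r : ℝ) (f : V → W) : Prop :=
  0 < lam ∧ 1 ≤ H ∧ (∀ z ∈ U, ‖z‖ ≤ 1 → f z = F z) ∧
    ∀ q q' : V, ‖q‖ ≤ 1 → ‖q'‖ ≤ 1 → r / 2 ≤ ‖q - q'‖ → lam * r ≤ ‖f q - f q'‖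

/-- coarse discs with the germ `φ₀` at the boundary circle; `P` is the condition for the height of
the smooth parts of the disc and `T` the condition for the linear parts at the other points -/
def HasCoarseDiscs (μ : Measure V) (e : W →L[ℝ] ℝ) (C : ℝ) (P : (V → ℝ) → V → Prop)
    (T : (V →L[ℝ] W) → ℝ → Prop) (φ₀ : V → W) : Prop :=
  ∃ (U : Set V) (F : V → W) (S : Set ℝ) (f : ℝ → V → W) (lam H τ : ℝ → ℝ),
    IsOpen U ∧ PartialDisc e U F ∧ SameGerm F φ₀ ∧
    (∀ z ∈ U, ‖z‖ < 1 → P (fun w => e (F w)) z) ∧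
    (0 : ℝ) ∈ closure (S ∩ Ioi 0) ∧ Tendsto τ (𝓝[>] 0) (𝓝 0) ∧
    (∀ r ∈ S, 0 < r → AtScale U F (lam r) (H r) r (f r)) ∧
    ∀ x : V, ‖x‖ < 1 → x ∉ U → ∃ ρ : ℝ, 0 < ρ ∧ ∀ p : V, ‖p - x‖ < ρ → ∀ r ∈ S, 0 < r →
      r < ρ → CoarsePoint μ e C (lam r) (H r) (τ r) T (f r) r p

/-- coarse slice discs: no further condition -/
def CoarseSlice (μ : Measure V) (e : W →L[ℝ] ℝ) (C : ℝ) (φ₀ : V → W) : Prop :=
  HasCoarseDiscs μ e C (fun _ _ => True) (fun _ _ => True) φ₀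

/-- coarse ribbon discs: in the smooth parts the critical points of the height are nondegenerate and
not local minima, and at the other points the height of the linear part `L` is nonzero with a
margin -/
def CoarseRibbon (μ : Measure V) (e : W →L[ℝ] ℝ) (C : ℝ) (φ₀ : V → W) : Prop :=
  HasCoarseDiscs μ e C NoMin (fun L δ => ∃ v, C * δ * ‖v‖ < e (L v)) φ₀

end

theorem ht_norm : ‖ht‖ ≤ 1 := by
  refine ContinuousLinearMap.opNorm_le_bound _ zero_le_one fun v => ?_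
  rw [one_mul]
  exact PiLp.norm_apply_le v 3

theorem ht_fderiv {φ : R2 → R4} {x : R2} (h : DifferentiableAt ℝ φ x) :
    fderiv ℝ (fun w => ht (φ w)) x = ht.comp (fderiv ℝ φ x) :=
  (ht.hasFDerivAt.comp x h.hasFDerivAt).fderiv

theorem forward {C : ℝ} (hC : Pool.Agent.N824.CD.CE 2 ≤ C) {P : (R2 → ℝ) → R2 → Prop}
    {T : (R2 →L[ℝ] R4) → ℝ → Prop} {φ₀ : R2 → R4} (h : HasCoarseDiscs vol2 ht C P T φ₀) :
    ∃ φ, SliceDisc ht φ ∧ SameGerm φ φ₀ ∧ ∀ x : R2, ‖x‖ < 1 →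
      (∃ F : R2 → R4, P (fun w => ht (F w)) x ∧ φ =ᶠ[𝓝 x] F) ∨ ∃ (L : R2 →L[ℝ] R4) (δ : ℝ), T L δ ∧ 0 ≤ δ ∧
        ‖fderiv ℝ φ x - L‖ ≤ Pool.Agent.N824.CD.CD 2 * δ := by
  obtain ⟨U, F, S, f, lam, H, τ, hU, hF, hg, hP, hS, hτ, hr, hc⟩ := h
  have hS' : (0 : ℝ) ∈ closure ((S ∩ Ioi 0) ∩ Ioi 0) := by
    rwa [inter_assoc, inter_self]
  have hD : Pool.Agent.N824.CD.CData 2 U F (S ∩ Ioi 0) f τ
      (Pool.Agent.N824.CD.QE C ht f lam H T) :=
    { oU := hU
      sph := hF.circle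
      F0s := hF.smooth
      acc := hS'
      τ0 := hτ
      eqU := fun r hr' => (hr r hr'.1 hr'.2).2.2.1
      good := fun x hx hxU => by
        obtain ⟨ρ, hρ, hcp⟩ := hc x hx hxU
        refine ⟨ρ, hρ, fun p hp r hr' h0 hrρ => ?_⟩
        obtain ⟨L, δ, m, h1, h2, ⟨h3, c, h4⟩, h5, h6, h7, h8, h9, h10⟩ :=
          hcp p hp r hr'.1 h0 hrρ
        exact ⟨L, δ, c, h1, h2, ⟨h3, h4⟩, ⟨m, h5, h6⟩, h7, h8, h9, h10⟩ }
  obtain ⟨φ, k1, k2, k3, k4, k5, k6⟩ := Pool.Agent.N824.CD.emb hC ht_norm hD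
    (fun r hr' h0 => ⟨(hr r hr'.1 h0).1, (hr r hr'.1 h0).2.1⟩)
    (fun r hr' h0 => (hr r hr'.1 h0).2.2.2) hF.inj hF.imm (fun z hz hz1 => hF.pos z hz hz1)
  refine ⟨φ, ⟨fun _ _ => mem_univ _, fun z _ hz => k1 z hz, fun z _ w _ hz hw => k2 z w hz hw,
    fun z _ hz => k3 z hz, fun z hz => ?_, fun z _ hz => k4 z hz⟩,
    fun z hz => (k5 z hz).trans (hg z hz), fun x hx => ?_⟩
  · obtain ⟨b1, b2⟩ := hF.bdry z hz
    have h1 := k5 z hz
    refine ⟨by rw [h1.self_of_nhds]; exact b1, ?_⟩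
    have h2 : (fun w => ht (φ w)) =ᶠ[𝓝 z] fun w => ht (F w) := by
      filter_upwards [h1] with w hw
      rw [hw]
    rw [h2.fderiv_eq]
    exact b2
  · rcases k6 x hx with ⟨h1, h2⟩ | h1
    · exact Or.inl ⟨F, hP x h1 hx, h2⟩
    · exact Or.inr h1

theorem backward (C : ℝ) {P : (R2 → ℝ) → R2 → Prop} {φ φ₀ : R2 → R4} (hφ : SliceDisc ht φ)
    (hg : SameGerm φ φ₀) (hP : ∀ z : R2, ‖z‖ < 1 → P (fun w => ht (φ w)) z) :
    HasCoarseDiscs vol2 ht C P (fun L δ => ∃ v, C * δ * ‖v‖ < ht (L v)) φ₀ := by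
  have hs : ∀ x : R2, ‖x‖ ≤ 1 → ContDiffAt ℝ ∞ φ x := fun x hx => hφ.smooth x (mem_univ x) hx
  obtain ⟨τ, lam, H, h1, h2, h3, h4, h5⟩ := Pool.Agent.N824.CD.back C ht ht_norm hs
    (fun x y hx hy => hφ.inj x (mem_univ x) y (mem_univ y) hx hy)
    (fun x hx => hφ.imm x (mem_univ x) hx) (fun x hx => hφ.pos x (mem_univ x) hx)
  refine ⟨{z | 1 / 2 < ‖z‖} ∪ {z | ‖z‖ < 1 ∧ ‖fderiv ℝ (fun w => ht (φ w)) z‖ < 1}, φ, Ioi 0,
    fun _ => φ, fun _ => lam, fun _ => H, τ, ?_, ?_, hg, fun z _ hz => hP z hz, ?_, h1,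
    fun r _ hr => ⟨h2, h3, fun _ _ _ => rfl, h4 r hr⟩, fun x hx hxU => ?_⟩
  · refine (isOpen_lt continuous_const continuous_norm).union ?_
    rw [isOpen_iff_mem_nhds]
    rintro z ⟨hz, hdz⟩
    have k1 : ContDiffAt ℝ ∞ (fun w => ht (φ w)) z :=
      ht.contDiff.contDiffAt.comp z (hs z hz.le)
    have k2 : ContinuousAt (fderiv ℝ fun w => ht (φ w)) z :=
      (k1.fderiv_right (m := 0) (by simp)).continuousAt
    filter_upwards [(isOpen_lt continuous_norm continuous_const).mem_nhds hz,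
      k2.norm.eventually_lt_const hdz] with y hy hy'
    exact ⟨hy, hy'⟩
  · exact ⟨fun z hz => Or.inl (by simp [hz]; norm_num), fun z _ => hs z,
      fun z _ w _ => hφ.inj z (mem_univ z) w (mem_univ w), fun z _ => hφ.imm z (mem_univ z),
      hφ.bdry, fun z _ => hφ.pos z (mem_univ z)⟩
  · rw [inter_self, closure_Ioi]
    exact self_mem_Ici
  · rw [mem_union, not_or] at hxU
    obtain ⟨-, u2⟩ := hxU
    have u3 : 1 ≤ ‖ht.comp (fderiv ℝ φ x)‖ := by
      rw [← ht_fderiv ((hs x hx.le).differentiableAt (by simp))]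
      by_contra hcon
      push Not at hcon
      exact u2 ⟨hx, hcon⟩
    obtain ⟨ρ, hρ, hh⟩ := h5 x hx u3
    refine ⟨ρ, hρ, fun p hp r _ h0 hrρ => ?_⟩
    obtain ⟨L, δ, c, a1, a2, ⟨a3, a4⟩, ⟨m, a5, a6⟩, a7, a8, a9, a10⟩ := hh p hp r h0 hrρ
    exact ⟨L, δ, m, a1, a2, ⟨a3, c, a4⟩, a5, a6, a7, a8, a9, a10⟩

theorem result : ∃ C₀ : ℝ, ∀ C : ℝ, C₀ ≤ C → ∀ φ₀ : R2 → R4,
    ((∃ φ, SliceDisc ht φ ∧ SameGerm φ φ₀) ↔ CoarseSlice vol2 ht C φ₀) ∧
    ((∃ φ, RibbonDisc ht φ ∧ SameGerm φ φ₀) ↔ CoarseRibbon vol2 ht C φ₀) := by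
  refine ⟨Pool.Agent.N824.CD.CE 2, fun C hC φ₀ => ⟨⟨?_, ?_⟩, ⟨?_, ?_⟩⟩⟩
  · rintro ⟨φ, hφ, hg⟩
    obtain ⟨U, F, S, f, lam, H, τ, a1, a2, a3, -, a5, a6, a7, a8⟩ :=
      backward C (P := fun _ _ => True) hφ hg (fun _ _ => trivial)
    refine ⟨U, F, S, f, lam, H, τ, a1, a2, a3, fun _ _ _ => trivial, a5, a6, a7,
      fun x hx hxU => ?_⟩
    obtain ⟨ρ, hρ, hh⟩ := a8 x hx hxU
    refine ⟨ρ, hρ, fun p hp r hr h0 hrρ => ?_⟩
    obtain ⟨L, δ, m, b1, b2, b3, b4, b5, b6, b7, b8, -⟩ := hh p hp r hr h0 hrρ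
    exact ⟨L, δ, m, b1, b2, b3, b4, b5, b6, b7, b8, trivial⟩
  · intro h
    obtain ⟨φ, h1, h2, -⟩ := forward hC h
    exact ⟨φ, h1, h2⟩
  · rintro ⟨φ, ⟨hφ, hm⟩, hg⟩
    exact backward C hφ hg hm
  · intro h
    obtain ⟨φ, h1, h2, h3⟩ := forward hC h
    refine ⟨φ, ⟨h1, fun x hx => ?_⟩, h2⟩
    rcases h3 x hx with ⟨F, hF, he⟩ | ⟨L, δ, ⟨v, hv⟩, hδ, hL⟩
    · have e1 : (fun w => ht (φ w)) =ᶠ[𝓝 x] fun w => ht (F w) := by
        filter_upwards [he] with w hw
        rw [hw]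
      intro hcrit
      rw [e1.fderiv_eq] at hcrit
      rw [e1.fderiv.fderiv_eq]
      exact hF hcrit
    · intro hcrit
      exfalso
      rw [ht_fderiv ((h1.smooth x (mem_univ x) hx.le).differentiableAt (by simp))] at hcrit
      have k1 : ht (fderiv ℝ φ x v) = 0 := DFunLike.congr_fun hcrit v
      have k2 : ‖ht ((fderiv ℝ φ x - L) v)‖ ≤ Pool.Agent.N824.CD.CD 2 * δ * ‖v‖ := by
        refine (ht.le_opNorm _).trans ?_
        calc ‖ht‖ * ‖(fderiv ℝ φ x - L) v‖ ≤ 1 * (Pool.Agent.N824.CD.CD 2 * δ * ‖v‖) := by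
              have k3 := ht_norm
              have k4 : ‖(fderiv ℝ φ x - L) v‖ ≤ Pool.Agent.N824.CD.CD 2 * δ * ‖v‖ :=
                (ContinuousLinearMap.le_opNorm _ _).trans (by gcongr)
              gcongr
          _ = _ := one_mul _
      rw [sub_apply, map_sub, k1, zero_sub, norm_neg, Real.norm_eq_abs] at k2
      have k3 := (abs_le.1 k2).2
      have k5 : Pool.Agent.N824.CD.CD 2 ≤ C := by
        have k6 := Pool.Agent.N824.CD.CE_ge (n := 2)
        have k7 := Pool.Agent.N824.CD.CD_one (n := 2)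
        linarith
      have k6 : Pool.Agent.N824.CD.CD 2 * δ * ‖v‖ ≤ C * δ * ‖v‖ := by gcongr
      linarith

end Pool.Agent.Results.MP_752436_gt.CoarseDiscs
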