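import Pool.Agent.N824.CS.GlobQ
import Pool.Agent.N824.FL.Str

/-!
# Slice discs with coarse ribbon functions are ribbon discs

A slice disc in the half-space `x₃ ≥ 0` of `ℝ⁴` (coordinates `x₀, …, x₃`) is a ribbon disc if the
height `x₃`, restricted to the disc, is a Morse function without local minima in the interior of the
disc (all the critical points are saddles or maxima); a knot is ribbon if and only if it bounds such a
disc. By flowing along a gradient, a slice disc `D` can be moved to a ribbon disc, by a diffeomorphism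
of `ℝ⁴` fixed near the half-space `x₃ ≤ 0`, if there is a smooth function `g : ℝ⁴ → ℝ` without critical
points, equal to `x₃` outside a compact subset of `x₃ > 0`, whose restriction to `D` is Morse without
interior local minima. We show that the function only has to be known at a coarse level, and may be
discontinuous.

Let `φ` parametrize a slice disc. Let `F` be a function which is smooth and without critical points on
an open set `U`, equal to `x₃` outside a compact subset of `x₃ > 0` contained in `ℝ⁴` (so `U` contains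
the complement of this compact set, in particular the half-space `x₃ ≤ 0`), and such that at the points
of the disc in `U` the restriction of `F` to the disc is regular, or has a nondegenerate critical point
which is not a local minimum. Suppose that, for arbitrarily small scales `r` (all `r` in a set `S`
accumulating at `0`, for instance a sequence), we are given a measurable, locally bounded function
`f r : ℝ⁴ → ℝ`, with `f r = F` on `U`, such that every point `x` outside `U` is a coarse regular point,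
also relative to the disc: for every point `p` near `x` and every small scale `r ∈ S` there are a
direction `u`, tangent to the disc if `p` is a point of the disc, and a slope `m > 0` (both may depend
on `p` and `r` in any way) such that `f r` oscillates by at most `m H(r) r` on the ball of radius `r`
about `p`, and `f r q' - f r q ≥ m (t - ε r)` as soon as `q' - q` is equal to `t u` up to `r / H(r)` in
this ball. Here `ε` is at most a universal constant and `H` is an arbitrary function with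
`r H(r) → 0`.

Then there is a diffeomorphism `θ` of `ℝ⁴`, equal to the identity on a neighbourhood `x₃ < η` of the
half-space `x₃ ≤ 0`, such that `θ ∘ φ` is a ribbon disc. In particular the knot is ribbon.
-/

set_option autoImplicit false

open Set Filter Topology Metric Function
open scoped Manifold ContDiff

namespace Pool.Agent.Results.MP_752436_gt.CoarseRibbon

/-- `ℝ⁴` -/
abbrev R4 := EuclideanSpace ℝ (Fin 4)

/-- `φ` (on the closed unit disc) is a neat smooth embedding in the half-space `x₃ ≥ 0`, which maps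
exactly the boundary circle to the hyperplane `x₃ = 0`: a slice disc -/
structure SliceDisc (φ : ℂ → R4) : Prop where
  smooth : ∀ z ∈ closedBall (0 : ℂ) 1, ContDiffAt ℝ ∞ φ z
  inj : InjOn φ (closedBall 0 1)
  imm : ∀ z ∈ closedBall (0 : ℂ) 1, ∀ v, fderiv ℝ φ z v = 0 → v = 0
  bdry : ∀ z : ℂ, ‖z‖ = 1 → φ z 3 = 0 ∧ fderiv ℝ (fun w => φ w 3) z ≠ 0
  pos : ∀ z : ℂ, ‖z‖ < 1 → 0 < φ z 3

/-- `z` is a regular point of `h`, or a nondegenerate critical point which is not a local minimum -/
def NoMin (h : ℂ → ℝ) (z : ℂ) : Prop :=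
  fderiv ℝ h z = 0 →
    (∀ v, (∀ w, fderiv ℝ (fderiv ℝ h) z v w = 0) → v = 0) ∧ ¬ IsLocalMin h z

/-- a ribbon disc: a slice disc on which the height is a Morse function without interior local
minima -/
def RibbonDisc (φ : ℂ → R4) : Prop :=
  SliceDisc φ ∧ ∀ z : ℂ, ‖z‖ < 1 → NoMin (fun w => φ w 3) z

/-- `H ≥ 1` is a function of the scale `r` with `r H(r) → 0` as `r → 0` (for instance a constant,
or `r^(-1/2)`) -/
def Slow (H : ℝ → ℝ) : Prop :=
  (∀ r, 1 ≤ H r) ∧ Tendsto (fun r => r * H r) (𝓝[>] 0) (𝓝 0)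

/-- `u` is tangent to the disc at `p`, if `p` is a point of the disc -/
def TangentAt (φ : ℂ → R4) (p u : R4) : Prop :=
  ∀ z : ℂ, ‖z‖ < 1 → φ z = p → ∃ v, fderiv ℝ φ z v = u

/-- `x` is a coarse regular point of the functions `f r`, each one at its scale `r ∈ S`, also
relative to the disc -/
def CoarseRegular (C : ℝ) (S : Set ℝ) (φ : ℂ → R4) (f : ℝ → R4 → ℝ) (x : R4) : Prop :=
  ∃ (ε ρ : ℝ) (H : ℝ → ℝ), 0 ≤ ε ∧ C * ε ≤ 1 ∧ 0 < ρ ∧ Slow H ∧
    ∀ p : R4, ‖p - x‖ < ρ → ∀ r ∈ S, 0 < r → r < ρ → ∃ (u : R4) (m : ℝ), ‖u‖ = 1 ∧ 0 < m ∧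
      TangentAt φ p u ∧ (∀ q, ‖q - p‖ ≤ r → |f r q - f r p| ≤ m * (H r * r)) ∧
      ∀ q q', ‖q - p‖ ≤ r → ‖q' - p‖ ≤ r → ∀ t : ℝ, 0 ≤ t →
        ‖q' - q - t • u‖ ≤ r / H r → m * (t - ε * r) ≤ f r q' - f r q

theorem result : ∃ C : ℝ, 0 < C ∧
    ∀ (φ : ℂ → R4) (_ : SliceDisc φ) (U K : Set R4) (_ : IsOpen U) (_ : IsCompact K)
      (F : R4 → ℝ) (_ : ∀ x ∈ U, ContDiffAt ℝ ∞ F x ∧ fderiv ℝ F x ≠ 0)
      (_ : ∀ x ∈ K, 0 < x 3) (_ : ∀ x, x ∉ K → x ∈ U ∧ F x = x 3)
      (_ : ∀ z : ℂ, ‖z‖ < 1 → φ z ∈ U → NoMin (fun w => F (φ w)) z)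
      (S : Set ℝ) (_ : (0 : ℝ) ∈ closure (S ∩ Ioi 0)) (f : ℝ → R4 → ℝ)
      (_ : ∀ r ∈ S, Measurable (f r) ∧ ∀ K, IsCompact K → ∃ b : ℝ, ∀ x ∈ K, |f r x| ≤ b)
      (_ : ∀ r ∈ S, ∀ x ∈ U, f r x = F x) (_ : ∀ x, x ∉ U → CoarseRegular C S φ f x),
      ∃ (θ Ψ : R4 → R4) (η : ℝ), ContDiff ℝ ∞ θ ∧ ContDiff ℝ ∞ Ψ ∧ (∀ x, Ψ (θ x) = x) ∧
        (∀ x, θ (Ψ x) = x) ∧ 0 < η ∧ (∀ x, x 3 < η → θ x = x) ∧
        RibbonDisc (fun z => θ (φ z)) := by
  have hC0 : 0 < Pool.Agent.N824.CR.CC 4 := by
    have := Pool.Agent.N824.CR.C1_nonneg 4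
    unfold Pool.Agent.N824.CR.CC
    linarith
  refine ⟨Pool.Agent.N824.CR.CC 4, hC0, ?_⟩
  intro φ hφ U K hU hK F hF hK0 hKU hφU S hS f hf hfe hc
  obtain ⟨Q, hQ⟩ : ∃ Q : (R4 → R4) → R4 → R4 → Prop,
    Q = fun A p u => (∃ a : R4, A = fun z => z + a) ∧ TangentAt φ (A p) u := ⟨_, rfl⟩
  obtain ⟨Z, hZ⟩ : ∃ Z : Set R4, Z = {x | x 3 ≤ 0} := ⟨_, rfl⟩
  have hc3 : Continuous fun x : R4 => x 3 := by fun_prop
  have hZc : IsClosed Z := by
    rw [hZ]
    exact isClosed_le hc3 continuous_const
  have hZU : Z ⊆ U := by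
    intro x hx
    rw [hZ] at hx
    refine (hKU x fun h => ?_).1
    have := hK0 x h
    have h2 : x 3 ≤ 0 := hx
    linarith
  have hUc : IsCompact Uᶜ := by
    refine hK.of_isClosed_subset hU.isClosed_compl fun x hx => ?_
    by_contra h
    exact hx (hKU x h).1
  have hsubAt : ∀ x ∈ U, x ∉ Z → Pool.Agent.N824.CS.SubAt 4 F x := by
    intro x hx _
    refine ⟨fun z => z, x, rfl, Pool.Agent.Y522.LD.id x, ?_⟩
    obtain ⟨v, hv⟩ : ∃ v, fderiv ℝ F x v ≠ 0 := by
      by_contra hcon
      push Not at hcon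
      apply (hF x hx).2
      ext1 v
      exact hcon v
    intro w
    refine ⟨(w / fderiv ℝ F x v) • v, ?_⟩
    show fderiv ℝ F x _ = w
    rw [map_smul, smul_eq_mul]
    field_simp
  have hcreg : ∀ x, x ∉ U → Pool.Agent.N824.CS.CRegQ 4 dist S f Q x := by
    intro x hx
    obtain ⟨ε, ρ, H, hε, hCε, hρ, ⟨hH1, hH2⟩, hf'⟩ := hc x hx
    refine ⟨fun z => z + x, 1, ε, ρ, H, zero_add x, Pool.Agent.Y522.LD_add_const x 0, le_rfl, hε,
      by simpa using hCε, hρ, hH1, hH2, ?_, ?_⟩
    · intro p q _ _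
      have : dist (p + x) (q + x) = ‖p - q‖ := by
        rw [dist_eq_norm]
        congr 1
        abel
      simp [this]
    · intro p hp r hr hr0 hrρ
      obtain ⟨u, m, hu, hm, hT, h1, h2⟩ := hf' (p + x) (by simpa using hp) r hr hr0 hrρ
      refine ⟨1 / m, u, by positivity, hu, ?_, ?_, ?_⟩
      · rw [hQ]
        exact ⟨⟨x, rfl⟩, hT⟩
      · intro q hq
        have h3 := h1 (q + x) (by
          have e1 : q + x - (p + x) = q - p := by abel
          rw [e1]
          simpa using hq)
        have e2 : ((1 / m) • ContinuousLinearMap.id ℝ ℝ) (f r (q + x)) -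
            ((1 / m) • ContinuousLinearMap.id ℝ ℝ) (f r (p + x)) =
            (f r (q + x) - f r (p + x)) / m := by
          simp only [smul_apply, ContinuousLinearMap.id_apply, smul_eq_mul]
          ring
        show |((1 / m) • ContinuousLinearMap.id ℝ ℝ) (f r (q + x)) -
            ((1 / m) • ContinuousLinearMap.id ℝ ℝ) (f r (p + x))| ≤ H r * r
        rw [e2, abs_div, abs_of_pos hm, div_le_iff₀ hm]
        linarith
      · intro q q' hq hq' t ht hqq
        have e1 : ∀ q, q + x - (p + x) = q - p := fun q => by abel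
        have h3 := h2 (q + x) (q' + x) (by rw [e1]; simpa using hq) (by rw [e1]; simpa using hq')
          t ht (by
            have e3 : q' + x - (q + x) - t • u = q' - q - t • u := by abel
            rw [e3]
            exact hqq)
        have e2 : ((1 / m) • ContinuousLinearMap.id ℝ ℝ) (f r (q' + x)) -
            ((1 / m) • ContinuousLinearMap.id ℝ ℝ) (f r (q + x)) =
            (f r (q' + x) - f r (q + x)) / m := by
          simp only [smul_apply, ContinuousLinearMap.id_apply, smul_eq_mul]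
          ring
        show t - ε * r ≤ ((1 / m) • ContinuousLinearMap.id ℝ ℝ) (f r (q' + x)) -
            ((1 / m) • ContinuousLinearMap.id ℝ ℝ) (f r (q + x))
        rw [e2, le_div_iff₀ hm]
        linarith
  obtain ⟨g, C, hC, hCZ, hCU, hgs, hgQ⟩ := Pool.Agent.N824.CS.globQ (n := 4) f F U dist Q S hS
    (fun r hr => (hf r hr).1) (fun r hr => (hf r hr).2) Z hZc hZU hU
    (fun x hx => contMDiffAt_iff_contDiffAt.2 (hF x hx).1) hsubAt hfe hcreg hUc
  have hgs' : ContDiff ℝ ∞ g := contDiff_iff_contDiffAt.2 fun x =>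
    contMDiffAt_iff_contDiffAt.1 (hgs x)
  have hgF : ∀ x, x ∉ C → g =ᶠ[𝓝 x] F := by
    intro x hx
    filter_upwards [hC.isClosed.isOpen_compl.mem_nhds hx] with y hy
    exact (hCU y hy).2
  -- the directions
  have hdir : ∀ x ∈ C, ∃ u, TangentAt φ x u ∧ 0 < fderiv ℝ g x u := by
    intro x hx
    obtain ⟨A, p, u, hAp, -, hQ', hpos⟩ := hgQ x hx
    rw [hQ] at hQ'
    obtain ⟨⟨a, rfl⟩, hT⟩ := hQ'
    refine ⟨u, by rwa [hAp] at hT, ?_⟩
    have h1 : fderiv ℝ (fun z => g (z + a)) p = fderiv ℝ g (p + a) := fderiv_comp_add_right a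
    rw [h1] at hpos
    have h2 : p + a = x := hAp
    rwa [h2] at hpos
  have hgreg : ∀ x, fderiv ℝ g x ≠ 0 := by
    intro x h
    by_cases hx : x ∈ C
    · obtain ⟨u, -, hu⟩ := hdir x hx
      rw [h] at hu
      simp at hu
    · rw [(hgF x hx).fderiv_eq] at h
      exact (hF x (hCU x hx).1).2 h
  -- straightening
  obtain ⟨e, he⟩ : ∃ e : R4, e = EuclideanSpace.single 3 1 := ⟨_, rfl⟩
  have hen : ‖e‖ = 1 := by rw [he]; simp
  obtain ⟨L, hL⟩ : ∃ L : R4 →L[ℝ] ℝ, L = innerSL ℝ e := ⟨_, rfl⟩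
  have hLv : ∀ v, L v = inner ℝ e v := fun v => by rw [hL, innerSL_apply_apply]
  have hL3 : ∀ v, L v = v 3 := by
    intro v
    rw [hLv, he, EuclideanSpace.inner_single_left]
    simp
  obtain ⟨θ, Ψ, η, hθ, hΨ, hΨθ, hθΨ, hLθ, hη, hθη⟩ := Pool.Agent.N824.FL.straighten hen hLv hgs'
    hgreg (hC.union hK) (by
      rintro x (hx | hx)
      · rw [hL3]
        by_contra h
        push Not at h
        refine disjoint_left.1 hCZ hx ?_
        rw [hZ]
        exact h
      · rw [hL3]
        exact hK0 x hx) (by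
      intro x hx
      rw [mem_union, not_or] at hx
      rw [hL3, (hCU x hx.1).2, (hKU x hx.2).2])
  refine ⟨θ, Ψ, η, hθ, hΨ, hΨθ, hθΨ, hη, fun x hx => hθη x (by rwa [hL3]), ?_, ?_⟩
  · -- `θ ∘ φ` is a slice disc
    have hθ3 : ∀ z, θ (φ z) 3 = g (φ z) := fun z => by rw [← hL3, hLθ]
    have hnear : ∀ z : ℂ, ‖z‖ = 1 → (fun w => θ (φ w)) =ᶠ[𝓝 z] φ := by
      intro z hz
      have h1 : ContinuousAt (fun w => φ w 3) z :=
        hc3.continuousAt.comp (hφ.smooth z (by simp [hz])).continuousAt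
      have h2 : ∀ᶠ w in 𝓝 z, φ w 3 < η := by
        refine h1.eventually_lt continuousAt_const ?_
        rw [(hφ.bdry z hz).1]
        exact hη
      filter_upwards [h2] with w hw
      exact hθη _ (by rwa [hL3])
    have hθi : Injective θ := fun a b h => by rw [← hΨθ a, ← hΨθ b, h]
    refine ⟨fun z hz => ?_, fun z hz w hw h => ?_, fun z hz v hv => ?_, fun z hz => ?_,
      fun z hz => ?_⟩
    · exact hθ.contDiffAt.comp z (hφ.smooth z hz)
    · exact hφ.inj hz hw (hθi h)
    · have h1 : DifferentiableAt ℝ φ z := (hφ.smooth z hz).differentiableAt (by simp)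
      have h2 : DifferentiableAt ℝ θ (φ z) := hθ.differentiable (by simp) _
      have h3 : fderiv ℝ (fun z => θ (φ z)) z = (fderiv ℝ θ (φ z)).comp (fderiv ℝ φ z) :=
        fderiv_comp z h2 h1
      rw [h3] at hv
      refine hφ.imm z hz v ?_
      have h4 : DifferentiableAt ℝ Ψ (θ (φ z)) := hΨ.differentiable (by simp) _
      have h5 : (fderiv ℝ Ψ (θ (φ z))).comp (fderiv ℝ θ (φ z)) =
          ContinuousLinearMap.id ℝ R4 := by
        have h6 : fderiv ℝ (Ψ ∘ θ) (φ z) = (fderiv ℝ Ψ (θ (φ z))).comp (fderiv ℝ θ (φ z)) :=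
          fderiv_comp _ h4 h2
        have h7 : Ψ ∘ θ = id := by
          funext y
          exact hΨθ y
        rw [← h6, h7, fderiv_id]
      have h8 := DFunLike.congr_fun h5 (fderiv ℝ φ z v)
      rw [ContinuousLinearMap.comp_apply] at h8 hv
      rw [hv, map_zero] at h8
      exact h8.symm
    · obtain ⟨h1, h2⟩ := hφ.bdry z hz
      have h3 := hnear z hz
      refine ⟨?_, ?_⟩
      · have h5 : θ (φ z) = φ z := h3.self_of_nhds
        beta_reduce
        rw [h5]
        exact h1
      · have h4 : (fun w => θ (φ w) 3) =ᶠ[𝓝 z] fun w => φ w 3 := by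
          filter_upwards [h3] with w hw
          rw [hw]
        rw [h4.fderiv_eq]
        exact h2
    · by_contra hcon
      beta_reduce at hcon
      push Not at hcon
      have h1 : θ (θ (φ z)) = θ (φ z) := hθη _ (by rw [hL3]; linarith)
      rw [hθi h1] at hcon
      have := hφ.pos z hz
      linarith
  · intro z hz
    have hθ3 : (fun w => θ (φ w) 3) = fun w => g (φ w) := by
      funext w
      rw [← hL3, hLθ]
    rw [hθ3]
    have hzb : z ∈ closedBall (0 : ℂ) 1 := by simpa using hz.le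
    have h1 : DifferentiableAt ℝ φ z := (hφ.smooth z hzb).differentiableAt (by simp)
    intro hcrit
    by_cases hx : φ z ∈ C
    · exfalso
      obtain ⟨u, hT, hu⟩ := hdir _ hx
      obtain ⟨v, hv⟩ := hT z hz rfl
      have h2 : DifferentiableAt ℝ g (φ z) := hgs'.differentiable (by simp) _
      have h3 : fderiv ℝ (fun w => g (φ w)) z = (fderiv ℝ g (φ z)).comp (fderiv ℝ φ z) :=
        fderiv_comp z h2 h1
      rw [h3] at hcrit
      have h4 := DFunLike.congr_fun hcrit v
      rw [ContinuousLinearMap.comp_apply, hv] at h4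
      simp at h4
      linarith
    · have h2 : (fun w => g (φ w)) =ᶠ[𝓝 z] fun w => F (φ w) :=
        h1.continuousAt.eventually (hgF _ hx)
      have h3 := hφU z hz (hCU _ hx).1
      rw [h2.fderiv_eq] at hcrit
      obtain ⟨h4, h5⟩ := h3 hcrit
      refine ⟨?_, fun h6 => h5 ?_⟩
      · rw [h2.fderiv.fderiv_eq]
        exact h4
      · exact h6.congr h2

end Pool.Agent.Results.MP_752436_gt.CoarseRibbon
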