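import Pool.Agent.N15.RC.Fin

/-!
# Milnor's theorem for slice discs and ribbon discs

Milnor proved that the infimum of the total curvature of the curves of a given knot type is `2 π` times
the least number of maxima of a linear function on such a curve. We prove the analogue for the discs
bounded by a fixed knot in a half-space of Euclidean four-space.

The discs are smoothly embedded in the half-space `x₃ ≥ 0` (coordinates `x₀, …, x₃`), with boundary
in the hyperplane `x₃ = 0` and vertical near the boundary (`HalfDisc`). A disc is a ribbon disc if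
the height `x₃` is a Morse function on it which has no local minimum in the interior (in the 4-ball:
the distance from the centre has no local maximum). `nmin` and `nmax` are the numbers of the local
minima and maxima of the height in the interior.

The lower total curvature `lowE` (upper total curvature `uppE`) is the integral, over the disc and over
the unit normal vectors `n` with `n₃ > 0`, of the determinant of the second fundamental form `II_n`,
taken where `II_n` is positive definite (negative definite).

1. For every disc `φ` and all weights `a, b ≥ 0` there is a disc `ψ` with the same boundary on which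
   the height is a Morse function such that `π² (a nmin ψ + b nmax ψ) ≤ a lowE φ + b uppE φ`.
2. For every disc `ψ` on which the height is a Morse function and every `η > 0` there is a disc `φ`
   with the same boundary such that `lowE φ ≤ π² nmin ψ + η` and `uppE φ ≤ π² nmax ψ + η`.
3. So, for every boundary curve and all weights, the infimum of `a lowE + b uppE` over all discs is
   `π²` times the infimum of `a nmin + b nmax` over the discs with a Morse height: the pairs
   `(lowE, uppE) / π²` and the pairs `(nmin, nmax)` have the same support function in the directions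
   of the positive quadrant.
4. For every boundary curve and every `m`, equivalent are: it bounds a disc with a Morse height with
   at most `m` local minima; it bounds a disc of lower total curvature less than `π² (m + 1)`; for
   every `η > 0` it bounds a disc of lower total curvature at most `π² m + η`. For `m = 0`: it bounds
   a ribbon disc if and only if it bounds a disc of lower total curvature less than `π²`, if and only
   if the infimum of the lower total curvature is zero.

The proof builds on `Pool.Agent.N503.ML` (helper503: area formula for the Gauss map of the disc, the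
lift, the stretching, upper curvature), transferred to minima by the symmetry `φ ↦ -φ`.
-/

set_option autoImplicit false

namespace Pool.Agent.Results.MP_752436_gt.CurvatureOfRibbonDiscs

open scoped ENNReal NNReal
open Pool.Agent.N503.ML Pool.Agent.N15.RC Pool.Agent.Y503.RB
open MeasureTheory Metric

theorem result :
    -- (1) from curvature to extrema
    (∀ φ : ℂ → E4, HalfDisc φ → ∀ a b : ℝ≥0,
      ∃ ψ : ℂ → E4, HalfDisc ψ ∧ (∀ z ∈ sphere (0 : ℂ) 1, ψ z = φ z) ∧ MorseHt ψ ∧
        ENNReal.ofReal (Real.pi ^ 2) * (a * (nmin ψ : ℝ≥0∞) + b * (nmax ψ : ℝ≥0∞)) ≤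
          a * lowE φ + b * uppE φ) ∧
    -- (2) from extrema to curvature
    (∀ ψ : ℂ → E4, HalfDisc ψ → MorseHt ψ → ∀ η : ℝ, 0 < η →
      ∃ φ : ℂ → E4, HalfDisc φ ∧ (∀ z ∈ sphere (0 : ℂ) 1, φ z = ψ z) ∧
        lowE φ ≤ ENNReal.ofReal (Real.pi ^ 2) * (nmin ψ : ℝ≥0∞) + ENNReal.ofReal η ∧
        uppE φ ≤ ENNReal.ofReal (Real.pi ^ 2) * (nmax ψ : ℝ≥0∞) + ENNReal.ofReal η) ∧
    -- (3) equality of the infima, for all weights
    (∀ (γ : ℂ → E4) (a b : ℝ≥0),
      ⨅ (φ : ℂ → E4) (_ : HalfDisc φ ∧ ∀ z ∈ sphere (0 : ℂ) 1, φ z = γ z),
          ((a : ℝ≥0∞) * lowE φ + b * uppE φ) =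
        ⨅ (ψ : ℂ → E4) (_ : (HalfDisc ψ ∧ ∀ z ∈ sphere (0 : ℂ) 1, ψ z = γ z) ∧ MorseHt ψ),
          ENNReal.ofReal (Real.pi ^ 2) *
            ((a : ℝ≥0∞) * (nmin ψ : ℝ≥0∞) + b * (nmax ψ : ℝ≥0∞))) ∧
    -- (4) the least number of local minima; `m = 0`: ribbon discs
    (∀ (γ : ℂ → E4) (m : ℕ), List.TFAE [
      ∃ ψ : ℂ → E4, HalfDisc ψ ∧ (∀ z ∈ sphere (0 : ℂ) 1, ψ z = γ z) ∧ MorseHt ψ ∧ nmin ψ ≤ m,
      ∃ φ : ℂ → E4, HalfDisc φ ∧ (∀ z ∈ sphere (0 : ℂ) 1, φ z = γ z) ∧
        lowE φ < ENNReal.ofReal (Real.pi ^ 2 * (m + 1)),
      ∀ η : ℝ, 0 < η → ∃ φ : ℂ → E4, HalfDisc φ ∧ (∀ z ∈ sphere (0 : ℂ) 1, φ z = γ z) ∧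
        lowE φ ≤ ENNReal.ofReal (Real.pi ^ 2 * m + η)]) :=
  ⟨fun _ h a b => extrema_of_curv h a b, fun _ h hM _ hη => curv_of_extrema h hM hη,
    inf_eq, tfae_min⟩

end Pool.Agent.Results.MP_752436_gt.CurvatureOfRibbonDiscs
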