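import Pool.Agent.N503.WI3

/-!
# The mean curvature of slice discs and ribbon discs

For a slice disc `φ` (`HalfDisc`: smoothly embedded in the half-space `x₃ ≥ 0` of Euclidean
four-space, with boundary in the hyperplane `x₃ = 0` and vertical near the boundary) let `H` be the
mean curvature vector (half of the trace of the second fundamental form, `meanCurv`), `willmore φ` the
Willmore energy `∫ |H|²`, and `upE φ` (`downE φ`) the integral over the disc and over the unit normal
vectors `n` with `n₃ > 0` of the square of the positive (negative) part of `H · n`. A disc is a ribbon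
disc if the height `x₃` is a Morse function on it without local minimum in the interior.

1. For all weights `a, b ≥ 0` there is a disc `ψ` with the same boundary and Morse height with
   `π² (a nmin ψ + b nmax ψ) ≤ a upE φ + b downE φ`.
2. There is such a disc with `2 π (nmin ψ + nmax ψ) ≤ willmore φ`.
3. Let every disc with Morse height and the boundary of `φ` have at least `M` local maxima. If
   `upE φ < π² (m + 1)` or `willmore φ < 2 π (M + m + 1)`, then there is such a disc with at most `m`
   local minima (`m = 0`: a ribbon disc).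

The total curvature of Milnor's theorem for slice discs (`CurvatureOfRibbonDiscs`, helper15 with the
library of helper503) is estimated by the mean curvature: `4 det I · det II_n ≤ (trace)²`.
-/

set_option autoImplicit false

namespace Pool.Agent.Results.MP_752436_gt.WillmoreSliceDiscs

open scoped ENNReal NNReal
open Pool.Agent.N503.ML Pool.Agent.N15.RC Pool.Agent.Y503.RB Pool.Agent.N503.WI
open MeasureTheory Metric

theorem result (φ : ℂ → E4) (h : HalfDisc φ) :
    -- (1) directed mean curvature energies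
    (∀ a b : ℝ≥0, ∃ ψ : ℂ → E4, HalfDisc ψ ∧ (∀ z ∈ sphere (0 : ℂ) 1, ψ z = φ z) ∧ MorseHt ψ ∧
      ENNReal.ofReal (Real.pi ^ 2) * (a * (nmin ψ : ℝ≥0∞) + b * (nmax ψ : ℝ≥0∞)) ≤
        a * upE φ + b * downE φ) ∧
    -- (2) Willmore energy
    (∃ ψ : ℂ → E4, HalfDisc ψ ∧ (∀ z ∈ sphere (0 : ℂ) 1, ψ z = φ z) ∧ MorseHt ψ ∧
      ENNReal.ofReal (2 * Real.pi) * ((nmin ψ : ℝ≥0∞) + (nmax ψ : ℝ≥0∞)) ≤ willmore φ) ∧
    -- (3) few local minima; `m = 0`: ribbon discs
    (∀ M m : ℕ, (∀ ψ : ℂ → E4, HalfDisc ψ → (∀ z ∈ sphere (0 : ℂ) 1, ψ z = φ z) → MorseHt ψ →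
        (M : ℕ∞) ≤ nmax ψ) →
      (upE φ < ENNReal.ofReal (Real.pi ^ 2 * (m + 1)) ∨
        willmore φ < ENNReal.ofReal (2 * Real.pi * (M + m + 1))) →
      ∃ ψ : ℂ → E4, HalfDisc ψ ∧ (∀ z ∈ sphere (0 : ℂ) 1, ψ z = φ z) ∧ MorseHt ψ ∧
        nmin ψ ≤ m) :=
  ⟨fun a b => weighted h a b, total h, fun M m hM hor =>
    hor.elim (fun hU => few_min h m hU) (fun hW => few_min_willmore h M m hM hW)⟩

end Pool.Agent.Results.MP_752436_gt.WillmoreSliceDiscs
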